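import Pool.Agent.Helper39.CR.GoalsS

/-!
Packet CAR4-MONO (MP_d97caa_an): the fixed point algebras of elements of finite order have a unique tracial state.
-/

set_option autoImplicit false

open scoped ComplexOrder ZeroAtInfty
open TopologicalSpace

namespace Pool.Agent.Helper87.CR

open Pool.Agent.Helper34.CAR Pool.Agent.Helper39.Uct Pool.Agent.Helper39.CR

noncomputable section

theorem cont_of_tr {H : Type} [NonUnitalCStarAlgebra H] {τ : H →ₗ[ℂ] ℂ} (h : IsTrState τ) :
    Continuous τ :=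
  AddMonoidHomClass.continuous_of_bound τ 1 fun x => by simpa using h.2.1 x

theorem sum_cd {I Γ : Type} [Fintype I] [DecidableEq I] (B : Type) [CStarAlgebra B] (w : I → Γ) :
    ((∑ x, cd B w x 1 : Gd B w) : Mt I B) = 1 := by
  have h1 : ((∑ x, cd B w x 1 : Gd B w) : Mt I B) = ∑ x, (Mt.single x x 1 : Mt I B) := by
    have h2 : ∀ s : Finset I, ((∑ x ∈ s, cd B w x 1 : Gd B w) : Mt I B) =
        ∑ x ∈ s, (Mt.single x x 1 : Mt I B) := by
      intro s
      induction s using Finset.induction_on with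
      | empty => rfl
      | insert a s ha ih => rw [Finset.sum_insert ha, Finset.sum_insert ha, ← ih]; rfl
    exact h2 Finset.univ
  rw [h1]
  ext i j
  rw [Mt.sum_apply, Mt.one_apply]
  simp only [Mt.single_apply]
  by_cases h : i = j
  · subst h
    simp
  · rw [if_neg h]
    refine Finset.sum_eq_zero fun x _ => ?_
    rw [if_neg]
    rintro ⟨h1, h2⟩
    exact h (h1.trans h2.symm)

theorem mono (hT : S_TTOW) (hR : S_TRU) (hB : S_BIG) (hC : S_CTR) : S_MONO := by
  intro E _ s hm h2 L _ ι hL hcar γ Z n hn hF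
  have one_mem : (1 : L) ∈ fixA γ Z := fun z _ => map_one (γ.act z)
  obtain ⟨τ₀, hpos, hnorm, htr, hone⟩ := hC L hcar
  let σ : Fix γ Z →ₗ[ℂ] ℂ :=
    { toFun := fun a => τ₀ (a : L)
      map_add' := fun a b => map_add τ₀ _ _
      map_smul' := fun c a => map_smul τ₀ _ _ }
  have hσ : IsTrState σ := by
    refine ⟨fun a => hpos a.1, fun a => hnorm a.1, fun a b => htr a.1 b.1, fun e he => ?_⟩
    have h3 := (he ⟨1, one_mem⟩).1
    have h4 : (e : L) * 1 = 1 := congrArg Subtype.val h3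
    rw [mul_one] at h4
    change τ₀ (e : L) = 1
    rw [h4]
    exact hone 1 fun a => ⟨one_mul a, mul_one a⟩
  refine ⟨σ, hσ, fun τ hτ => ?_⟩
  obtain ⟨u, hu1, -, hu3, hu4⟩ := hT _ _ s L ι hL γ Z n hF
  have fam : ∀ τ : Fix γ Z →ₗ[ℂ] ℂ, IsTrState τ →
      TrFam s n (fun k => τ ∘ₗ ((u k : Gd (Unitization ℂ C₀(ℝ, E)) (wz s n k) →ₗ[ℂ] Fix γ Z))) := by
    intro τ hτ
    refine ⟨fun k a => ?_, fun k a b => ?_, fun k a => ?_, fun k => ?_⟩
    · change 0 ≤ τ (u k (star a * a))
      rw [map_mul (u k), map_star]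
      exact hτ.1 _
    · change τ (u k (a * b)) = τ (u k (b * a))
      rw [map_mul (u k), map_mul (u k)]
      exact hτ.2.2.1 _ _
    · change τ (u (k + 1) (kd s n k a)) = τ (u k a)
      rw [hu3]
    · rw [← map_sum]
      change τ (u k _) = 1
      apply hτ.2.2.2
      have h5 : ((u k (∑ x, cd (Unitization ℂ C₀(ℝ, E)) (wz s n k) x 1) : Fix γ Z) : L) = 1 := by
        rw [hu1, sum_cd, map_one]
      intro a
      constructor
      · apply Subtype.ext
        change ((u k _ : Fix γ Z) : L) * (a : L) = a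
        rw [h5, one_mul]
      · apply Subtype.ext
        change (a : L) * ((u k _ : Fix γ Z) : L) = a
        rw [h5, mul_one]
  have halt : (∀ x : C₀(ℝ, E), x = 0) ∨ ∀ N, ∃ i ≥ N, 4 ≤ Fintype.card (s.C i) := by
    by_cases h : ∀ x : C₀(ℝ, E), x = 0
    · exact Or.inl h
    · push Not at h
      exact Or.inr (hB _ _ s hm h)
  have key := hR _ _ s n hn h2 halt _ _ (fam τ hτ) (fam σ hσ)
  have hext := (cont_of_tr hτ).ext_on hu4 (cont_of_tr hσ) (by
    intro x hx
    rw [Set.mem_iUnion] at hx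
    obtain ⟨k, a, rfl⟩ := hx
    exact key k a)
  exact LinearMap.ext fun x => congrFun hext x

end

end Pool.Agent.Helper87.CR
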